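import Pool.Agent.Lib.MP_5fcc10_co_lin.DPDefs
import Pool.Agent.Lib.MP_5fcc10_co.LLL

/-! Module DP2: chains of structures (a path followed by a double path). -/

set_option linter.unusedSectionVars false

namespace Pool.Agent.SK.Lin

open Finset
open scoped symmDiff

namespace H87

variable {n p m d0 : ℕ}

lemma card_pes (Z : Finset (Fin n)) {d : ℕ} (a : Fin d → Fin n) : (pes Z a).card ≤ d := by
  unfold pes
  refine card_image_le.trans ?_
  rw [card_univ, Fintype.card_fin]

lemma card_S (v : Finset (Fin n)) (x : Str n p m d0) : (x.S v).card ≤ m + 2 * d0 := by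
  unfold Str.S
  refine (card_union_le _ _).trans ?_
  have h1 : (x.SA v).card ≤ m := by
    unfold Str.SA
    exact (card_pes _ _).trans (Nat.lt_succ_iff.1 x.1.1.isLt)
  have h2 : (x.SP v ∪ x.SQ v).card ≤ 2 * d0 := by
    refine (card_union_le _ _).trans ?_
    have h3 : (x.SP v).card ≤ d0 := by
      unfold Str.SP
      exact (card_pes _ _).trans (Nat.lt_succ_iff.1 x.2.1.1.isLt)
    have h4 : (x.SQ v).card ≤ d0 := by
      unfold Str.SQ
      exact (card_pes _ _).trans (Nat.lt_succ_iff.1 x.2.1.1.isLt)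
    omega
  omega

lemma card_biU {T : ℕ} (v : Finset (Fin n)) (lam : Fin T → Str n p m d0) (A : Finset (Fin T)) :
    (A.biUnion (fun s => (lam s).S v)).card ≤ T * (m + 2 * d0) := by
  refine (card_biUnion_le).trans ?_
  refine (sum_le_sum (fun s _ => card_S v (lam s))).trans ?_
  rw [sum_const, smul_eq_mul]
  refine Nat.mul_le_mul_right _ ?_
  refine (card_le_univ A).trans ?_
  rw [Fintype.card_fin]

/-- `occ` depends on the edges only -/
lemma occ_congr {v : Finset (Fin n)} {i : ZMod p} {x : Str n p m d0} {ψ ψ' : Ix n → Lb p}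
    (h : ∀ y ∈ x.S v, ψ y = ψ' y) : x.occ ψ v i ↔ x.occ ψ' v i := by
  have hA : ∀ y ∈ x.SA v, ψ y = ψ' y := fun y hy => h y (mem_union_left _ hy)
  have hP : ∀ y ∈ x.SP v, ψ y = ψ' y := fun y hy =>
    h y (mem_union_right _ (mem_union_left _ hy))
  have hQ : ∀ y ∈ x.SQ v, ψ y = ψ' y := fun y hy =>
    h y (mem_union_right _ (mem_union_right _ hy))
  unfold Str.occ
  constructor
  · rintro ⟨a, b, c⟩
    exact ⟨fun y hy => hA y hy ▸ a y hy, fun y hy => hP y hy ▸ b y hy,
      fun y hy => hQ y hy ▸ c y hy⟩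
  · rintro ⟨a, b, c⟩
    exact ⟨fun y hy => (hA y hy).symm ▸ a y hy, fun y hy => (hP y hy).symm ▸ b y hy,
      fun y hy => (hQ y hy).symm ▸ c y hy⟩

/-- the probability that the edges of a set have prescribed colours -/
lemma P_cols [NeZero p] (B : Finset (Ix n)) (c : Ix n → ZMod p) :
    P (fun φ : Ix n → Lb p => ∀ y ∈ B, (φ y).1 = c y) = (1 / (p : ℝ)) ^ B.card := by
  classical
  have hP : P (fun φ : Ix n → Lb p => ∀ y ∈ B, (φ y).1 = c y)
      = E (fun φ : Ix n → Lb p => ∏ y ∈ B, if (φ y).1 = c y then (1 : ℝ) else 0) := by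
    unfold P
    refine E_congr (fun φ => ?_)
    by_cases h : ∀ y ∈ B, (φ y).1 = c y
    · rw [if_pos h, prod_congr rfl (fun y hy => if_pos (h y hy)), prod_const_one]
    · rw [if_neg h]
      push Not at h
      obtain ⟨y, hy, hyc⟩ := h
      exact (prod_eq_zero hy (if_neg hyc)).symm
  rw [hP]
  have hprod := E_prod (V := Ix n) (κ := Lb p) B (fun y => ({y} : Finset (Ix n)))
    (fun b _ c' _ hbc => disjoint_singleton.2 hbc)
    (fun y φ => if (φ y).1 = c y then (1 : ℝ) else 0)
    (fun b _ φ φ' h => by simp only; rw [h b (mem_singleton_self b)])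
  rw [hprod]
  have h2 : ∀ y ∈ B, E (fun φ : Ix n → Lb p => if (φ y).1 = c y then (1 : ℝ) else 0)
      = 1 / (p : ℝ) := by
    intro y _
    rw [E_coord y (fun a : Lb p => if a.1 = c y then (1 : ℝ) else 0)]
    rw [Fintype.sum_prod_type]
    have h3 : ∀ a : ZMod p, (∑ b : ZMod 2, if ((a, b) : Lb p).1 = c y then (1 : ℝ) else 0)
        = if a = c y then 2 else 0 := by
      intro a
      by_cases ha : a = c y
      · simp [ha]
      · simp [ha]
    rw [sum_congr rfl (fun a _ => h3 a), Finset.sum_ite_eq' univ (c y) (fun _ => (2 : ℝ))]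
    rw [if_pos (mem_univ _), Fintype.card_prod, ZMod.card, ZMod.card]
    have hp : (p : ℝ) ≠ 0 := by
      exact_mod_cast NeZero.ne p
    push_cast
    field_simp
  rw [prod_congr rfl h2, prod_const]

open Classical in
/-- conditional probability of a structure -/
lemma P_occ [NeZero p] (v : Finset (Fin n)) (i : ZMod p) (x : Str n p m d0) (U : Finset (Ix n))
    (ψ : Ix n → Lb p) :
    P (fun φ : Ix n → Lb p => x.occ (mix (univ \ U) φ ψ) v i)
      ≤ if x.okU ψ U v i then (1 / (p : ℝ)) ^ (x.S v \ U).card else 0 := by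
  by_cases hok : x.okU ψ U v i
  · rw [if_pos hok]
    rw [← P_cols (x.S v \ U) (fun y => if y ∈ x.SA v ∪ x.SP v then i else x.2.2)]
    refine P_mono (fun φ hφ y hy => ?_)
    rw [mem_sdiff] at hy
    have hmix : mix (univ \ U) φ ψ y = φ y := mix_in (mem_sdiff.2 ⟨mem_univ _, hy.2⟩)
    rw [← hmix]
    by_cases h1 : y ∈ x.SA v ∪ x.SP v
    · rw [if_pos h1]
      rcases mem_union.1 h1 with h2 | h2
      · exact hφ.1 y h2
      · exact hφ.2.1 y h2
    · rw [if_neg h1]
      have h2 : y ∈ x.SQ v := by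
        have h3 := hy.1
        unfold Str.S at h3
        rcases mem_union.1 h3 with h4 | h4
        · exact absurd (mem_union_left _ h4) h1
        · rcases mem_union.1 h4 with h5 | h5
          · exact absurd (mem_union_right _ h5) h1
          · exact h5
      exact hφ.2.2 y h2
  · rw [if_neg hok]
    refine le_of_eq ?_
    have h1 : ∀ φ : Ix n → Lb p, ¬ x.occ (mix (univ \ U) φ ψ) v i := by
      intro φ hφ
      apply hok
      have hmix : ∀ y ∈ U, mix (univ \ U) φ ψ y = ψ y := fun y hy =>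
        mix_out (fun h => (mem_sdiff.1 h).2 hy)
      exact ⟨fun y hy hU => hmix y hU ▸ hφ.1 y hy, fun y hy hU => hmix y hU ▸ hφ.2.1 y hy,
        fun y hy hU => hmix y hU ▸ hφ.2.2 y hy⟩
    unfold P
    rw [E_congr (g := fun _ => (0 : ℝ)) (fun φ => if_neg (h1 φ)), E_const]

/-- the union of the edges of the structures of a family -/
def un {T : ℕ} (v : Finset (Fin n)) (lam : Fin T → Str n p m d0) : Finset (Ix n) :=
  univ.biUnion (fun s => (lam s).S v)

/-- a chain -/
def chn {T : ℕ} (v : Finset (Fin n)) (lam : Fin T → Str n p m d0) : Prop :=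
  ∀ r, (lam r).ok ∧
    ¬ (lam r).S v ⊆ (univ.filter (fun s => s < r)).biUnion (fun s => (lam s).S v)

lemma filter_castSucc {T : ℕ} (r : Fin T) :
    (univ.filter (fun s : Fin (T + 1) => s < r.castSucc))
      = (univ.filter (fun s : Fin T => s < r)).image Fin.castSucc := by
  ext s
  simp only [mem_filter, mem_univ, true_and, mem_image]
  constructor
  · intro h
    refine ⟨⟨s.val, lt_of_lt_of_le h (Nat.le_of_lt_succ r.castSucc.isLt)⟩, ?_, ?_⟩
    · exact h
    · exact Fin.ext rfl
  · rintro ⟨s', hs', rfl⟩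
    exact hs'

lemma filter_last {T : ℕ} :
    (univ.filter (fun s : Fin (T + 1) => s < Fin.last T))
      = (univ : Finset (Fin T)).image Fin.castSucc := by
  ext s
  simp only [mem_filter, mem_univ, true_and, mem_image]
  constructor
  · intro h
    exact ⟨⟨s.val, h⟩, Fin.ext rfl⟩
  · rintro ⟨s', rfl⟩
    exact Fin.castSucc_lt_last s'

lemma chn_snoc {T : ℕ} (v : Finset (Fin n)) (lam : Fin T → Str n p m d0) (x : Str n p m d0) :
    chn v (Fin.snoc (α := fun _ => Str n p m d0) lam x) ↔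
      chn v lam ∧ x.ok ∧ ¬ x.S v ⊆ un v lam := by
  unfold chn
  constructor
  · intro h
    refine ⟨fun r => ?_, ?_⟩
    · have h1 := h r.castSucc
      rw [Fin.snoc_castSucc, filter_castSucc, image_biUnion] at h1
      refine ⟨h1.1, ?_⟩
      have h2 := h1.2
      simp only [Fin.snoc_castSucc] at h2
      exact h2
    · have h1 := h (Fin.last T)
      rw [Fin.snoc_last, filter_last, image_biUnion] at h1
      refine ⟨h1.1, ?_⟩
      have h2 := h1.2
      simp only [Fin.snoc_castSucc] at h2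
      exact h2
  · rintro ⟨h1, h2, h3⟩ r
    refine Fin.lastCases ?_ (fun r => ?_) r
    · rw [Fin.snoc_last, filter_last, image_biUnion]
      refine ⟨h2, ?_⟩
      simp only [Fin.snoc_castSucc]
      exact h3
    · rw [Fin.snoc_castSucc, filter_castSucc, image_biUnion]
      refine ⟨(h1 r).1, ?_⟩
      simp only [Fin.snoc_castSucc]
      exact (h1 r).2

lemma all_snoc {T : ℕ} (ψ : Ix n → Lb p) (v : Finset (Fin n)) (i : ZMod p)
    (lam : Fin T → Str n p m d0) (x : Str n p m d0) :
    (∀ r, ((Fin.snoc (α := fun _ => Str n p m d0) lam x : Fin (T + 1) → Str n p m d0) r).occ ψ v i)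
      ↔ (∀ r, (lam r).occ ψ v i) ∧ x.occ ψ v i := by
  constructor
  · intro h
    refine ⟨fun r => ?_, ?_⟩
    · have h1 := h r.castSucc
      rwa [Fin.snoc_castSucc] at h1
    · have h1 := h (Fin.last T)
      rwa [Fin.snoc_last] at h1
  · rintro ⟨h1, h2⟩ r
    refine Fin.lastCases ?_ (fun r => ?_) r
    · rw [Fin.snoc_last]; exact h2
    · rw [Fin.snoc_castSucc]; exact h1 r

open Classical in
/-- one more structure -/
lemma step [NeZero p] (v : Finset (Fin n)) (i : ZMod p) (ζ : ℝ) {T : ℕ}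
    (lam : Fin T → Str n p m d0)
    (hζ : ∀ (ψ0 : Ix n → Lb p), ∀ F : Finset (Str n p m d0),
      (∀ x ∈ F, x.ok ∧ ¬ x.S v ⊆ un v lam ∧ x.okU ψ0 (un v lam) v i) →
      ∑ x ∈ F, (1 / (p : ℝ)) ^ (x.S v \ un v lam).card ≤ ζ) :
    ∑ x ∈ (univ : Finset (Str n p m d0)).filter (fun x => x.ok ∧ ¬ x.S v ⊆ un v lam),
      P (fun ψ : Ix n → Lb p => (∀ r, (lam r).occ ψ v i) ∧ x.occ ψ v i)
      ≤ ζ * P (fun ψ : Ix n → Lb p => ∀ r, (lam r).occ ψ v i) := by
  set U := un v lam with hU
  set G := (univ : Finset (Str n p m d0)).filter (fun x => x.ok ∧ ¬ x.S v ⊆ U) with hG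
  unfold P
  rw [← E_sum, ← E_mul_left, ← E_mix (univ \ U)]
  refine E_mono (fun ψ => ?_)
  by_cases hlam : ∀ r, (lam r).occ ψ v i
  · rw [if_pos hlam, mul_one, E_sum]
    refine (sum_le_sum (g := fun x : Str n p m d0 =>
      if x.okU ψ U v i then (1 / (p : ℝ)) ^ (x.S v \ U).card else 0) (fun x _ => ?_)).trans ?_
    · refine le_trans (E_mono (fun φ => ?_)) (P_occ v i x U ψ)
      split_ifs with h3 h4 h4
      · exact le_rfl
      · exact absurd h3.2 h4
      · norm_num
      · exact le_rfl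
    · rw [← sum_filter]
      refine hζ ψ _ (fun x hx => ?_)
      rw [mem_filter, hG, mem_filter] at hx
      exact ⟨hx.1.2.1, hx.1.2.2, hx.2⟩
  · rw [if_neg hlam, mul_zero]
    refine le_of_eq ?_
    have hE0 : E (fun _ : Ix n → Lb p => (0 : ℝ)) = 0 := E_const 0
    refine Eq.trans (E_congr (fun φ => ?_)) hE0
    refine sum_eq_zero (fun x _ => if_neg (fun h => hlam (fun r => ?_)))
    refine (occ_congr (fun y hy => ?_)).1 (h.1 r)
    refine mix_out (fun h' => (mem_sdiff.1 h').2 ?_)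
    rw [hU]
    exact mem_biUnion.2 ⟨r, mem_univ _, hy⟩

open Classical in
lemma chain_aux [NeZero p] (v : Finset (Fin n)) (i : ZMod p) (ζ : ℝ) (hζ0 : 0 ≤ ζ) (T : ℕ) :
    (∀ (U : Finset (Ix n)) (ψ0 : Ix n → Lb p), U.card ≤ T * (m + 2 * d0) →
      ∀ F : Finset (Str n p m d0), (∀ x ∈ F, x.ok ∧ ¬ x.S v ⊆ U ∧ x.okU ψ0 U v i) →
      ∑ x ∈ F, (1 / (p : ℝ)) ^ (x.S v \ U).card ≤ ζ) →
    ∑ lam ∈ (univ : Finset (Fin T → Str n p m d0)).filter (fun lam => chn v lam),
      P (fun ψ : Ix n → Lb p => ∀ r, (lam r).occ ψ v i) ≤ ζ ^ T := by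
  induction T with
  | zero =>
    intro _
    rw [pow_zero]
    have h1 : ((univ : Finset (Fin 0 → Str n p m d0)).filter (fun lam => chn v lam)).card ≤ 1 := by
      refine (card_le_univ _).trans ?_
      rw [Fintype.card_fun, Fintype.card_fin, pow_zero]
    refine (sum_le_card_nsmul _ _ 1 (fun lam _ => P_le_one _)).trans ?_
    rw [nsmul_eq_mul, mul_one]
    exact_mod_cast h1
  | succ T ih =>
    intro hζ
    have h0 : ∑ lam ∈ (univ : Finset (Fin (T + 1) → Str n p m d0)).filter (fun lam => chn v lam),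
        P (fun ψ : Ix n → Lb p => ∀ r, (lam r).occ ψ v i)
        = ∑ lam ∈ (univ : Finset (Fin T → Str n p m d0)).filter (fun lam => chn v lam),
          ∑ x ∈ (univ : Finset (Str n p m d0)).filter (fun x => x.ok ∧ ¬ x.S v ⊆ un v lam),
          P (fun ψ : Ix n → Lb p => (∀ r, (lam r).occ ψ v i) ∧ x.occ ψ v i) := by
      rw [sum_filter]
      have h1 : ∑ lam : Fin (T + 1) → Str n p m d0,
          (if chn v lam then P (fun ψ : Ix n → Lb p => ∀ r, (lam r).occ ψ v i) else 0)
          = ∑ y : Str n p m d0 × (Fin T → Str n p m d0),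
            (if chn v (Fin.snoc (α := fun _ => Str n p m d0) y.2 y.1) then
              P (fun ψ : Ix n → Lb p => ∀ r,
                ((Fin.snoc (α := fun _ => Str n p m d0) y.2 y.1 : Fin (T + 1) → Str n p m d0)
                  r).occ ψ v i) else 0) :=
        (Fintype.sum_equiv (Fin.snocEquiv (fun _ => Str n p m d0)) _ _ (fun y => rfl)).symm
      rw [h1, Fintype.sum_prod_type_right, sum_filter]
      refine sum_congr rfl (fun lam _ => ?_)
      by_cases hl : chn v lam
      · rw [if_pos hl, sum_filter]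
        refine sum_congr rfl (fun x _ => ?_)
        have h2 := chn_snoc v lam x
        by_cases hx : x.ok ∧ ¬ x.S v ⊆ un v lam
        · rw [if_pos (h2.2 ⟨hl, hx⟩), if_pos hx]
          unfold P
          refine E_congr (fun ψ => ?_)
          have h3 := all_snoc ψ v i lam x
          by_cases h4 : (∀ r, (lam r).occ ψ v i) ∧ x.occ ψ v i
          · rw [if_pos h4]
            exact if_pos (h3.2 h4)
          · rw [if_neg h4]
            exact if_neg (fun h5 => h4 (h3.1 h5))
        · rw [if_neg (fun h => hx (h2.1 h).2), if_neg hx]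
      · rw [if_neg hl]
        refine sum_eq_zero (fun x _ => if_neg (fun h => hl ((chn_snoc v lam x).1 h).1))
    rw [h0]
    have h3 : ∀ lam ∈ (univ : Finset (Fin T → Str n p m d0)).filter (fun lam => chn v lam),
        ∑ x ∈ (univ : Finset (Str n p m d0)).filter (fun x => x.ok ∧ ¬ x.S v ⊆ un v lam),
          P (fun ψ : Ix n → Lb p => (∀ r, (lam r).occ ψ v i) ∧ x.occ ψ v i)
        ≤ ζ * P (fun ψ : Ix n → Lb p => ∀ r, (lam r).occ ψ v i) := by
      intro lam _
      refine step v i ζ lam (fun ψ0 F hF => hζ _ ψ0 ?_ F hF)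
      refine (card_biU v lam univ).trans (Nat.mul_le_mul_right _ (Nat.le_succ T))
    refine (sum_le_sum h3).trans ?_
    rw [← mul_sum, pow_succ, mul_comm]
    refine mul_le_mul_of_nonneg_right (ih (fun U ψ0 hU F hF => hζ U ψ0 ?_ F hF)) hζ0
    exact hU.trans (Nat.mul_le_mul_right _ (Nat.le_succ T))

lemma pe_zero (Z : Finset (Fin n)) {d : ℕ} (a : Fin d → Fin n) (h : 0 < d) :
    pe Z a ⟨0, h⟩ = ed Z (a ⟨0, h⟩) := by
  unfold pe pv
  have h1 : (univ.filter (fun r : Fin d => r.val < 0)) = ∅ := by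
    refine filter_eq_empty_iff.2 (fun r _ => Nat.not_lt_zero _)
  rw [h1, image_empty]
  congr 1
  exact symmDiff_bot Z

end H87

open H87

open Classical in
/-- The expected number of chains of `T` structures, each containing a new edge. -/
theorem chain_weight {n p : ℕ} [NeZero p] (m d0 : ℕ) (v : Finset (Fin n)) (i : ZMod p) (ζ : ℝ)
    (T : ℕ)
    (hζ : ∀ (U : Finset (Ix n)) (ψ0 : Ix n → Lb p), U.card ≤ T * (m + 2 * d0) →
      ∀ F : Finset (Str n p m d0), (∀ x ∈ F, x.ok ∧ ¬ x.S v ⊆ U ∧ x.okU ψ0 U v i) →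
      ∑ x ∈ F, (1 / (p : ℝ)) ^ (x.S v \ U).card ≤ ζ) :
    ∑ lam ∈ (univ : Finset (Fin T → Str n p m d0)).filter (fun lam => ∀ r, (lam r).ok ∧
        ¬ (lam r).S v ⊆ (univ.filter (fun s => s < r)).biUnion (fun s => (lam s).S v)),
      P (fun ψ : Ix n → Lb p => ∀ r, (lam r).occ ψ v i) ≤ ζ ^ T := by
  have hζ0 : 0 ≤ ζ := by
    have h := hζ ∅ (fun _ => (0, 0)) (by simp) ∅ (by simp)
    simpa using h
  refine le_of_eq_of_le ?_ (chain_aux v i ζ hζ0 T hζ)
  refine sum_congr ?_ (fun _ _ => rfl)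
  ext lam
  rw [mem_filter, mem_filter]
  rfl

/-- If no chain of length `T` occurs, then few pairs (end of path, first direction) occur. -/
theorem few_of_no_chain {n p : ℕ} (m d0 : ℕ) (v : Finset (Fin n)) (i : ZMod p) (T : ℕ)
    (ψ : Ix n → Lb p)
    (hno : ∀ lam : Fin T → Str n p m d0, (∀ r, (lam r).ok ∧ (lam r).occ ψ v i ∧
      ¬ (lam r).S v ⊆ (univ.filter (fun s => s < r)).biUnion (fun s => (lam s).S v)) → False)
    (W : Finset (Finset (Fin n) × Fin n))
    (hW : ∀ y ∈ W, ∃ x : Str n p m d0, x.ok ∧ x.occ ψ v i ∧ x.w v = y.1 ∧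
      ∃ h : 0 < x.2.1.1.val, x.2.1.2.1 ⟨0, h⟩ = y.2) :
    W.card ≤ 2 * (T * (m + 2 * d0)) := by
  classical
  -- a chain of maximal length
  have hmax : ∃ T' ≤ T, ∃ lam : Fin T' → Str n p m d0,
      (chn v lam ∧ ∀ r, (lam r).occ ψ v i) ∧
      ∀ x : Str n p m d0, x.ok → x.occ ψ v i → x.S v ⊆ un v lam := by
    by_contra hcon
    push Not at hcon
    have key : ∀ T' ≤ T, ∃ lam : Fin T' → Str n p m d0,
        chn v lam ∧ ∀ r, (lam r).occ ψ v i := by
      intro T'
      induction T' with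
      | zero =>
        intro _
        exact ⟨fun r => r.elim0, fun r => r.elim0, fun r => r.elim0⟩
      | succ T' ih =>
        intro hT'
        obtain ⟨lam, h1, h2⟩ := ih (Nat.le_of_succ_le hT')
        obtain ⟨x, hx1, hx2, hx3⟩ := hcon T' (Nat.le_of_succ_le hT') lam ⟨h1, h2⟩
        exact ⟨Fin.snoc (α := fun _ => Str n p m d0) lam x,
          (chn_snoc v lam x).2 ⟨h1, hx1, hx3⟩, (all_snoc ψ v i lam x).2 ⟨h2, hx2⟩⟩
    obtain ⟨lam, h1, h2⟩ := key T le_rfl
    exact hno lam (fun r => ⟨(h1 r).1, h2 r, (h1 r).2⟩)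
  obtain ⟨T', hT', lam, ⟨_, _⟩, hall⟩ := hmax
  have himg : W.image (fun y => ed y.1 y.2) ⊆ un v lam := by
    intro z hz
    rw [mem_image] at hz
    obtain ⟨y, hy, rfl⟩ := hz
    obtain ⟨x, hx1, hx2, hx3, h, hx4⟩ := hW y hy
    apply hall x hx1 hx2
    unfold Str.S
    refine mem_union_right _ (mem_union_left _ ?_)
    unfold Str.SP pes
    rw [mem_image]
    refine ⟨⟨0, h⟩, mem_univ _, ?_⟩
    rw [pe_zero, hx3, hx4]
  have hfib : W.card ≤ 2 * (W.image (fun y => ed y.1 y.2)).card := by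
    refine card_le_mul_card_image W 2 (fun z hz => ?_)
    rw [mem_image] at hz
    obtain ⟨y0, _, rfl⟩ := hz
    have h1 : W.filter (fun y => ed y.1 y.2 = ed y0.1 y0.2)
        ⊆ {(y0.1.erase y0.2, y0.2), (insert y0.2 y0.1, y0.2)} := by
      intro y hy
      rw [mem_filter] at hy
      have h2 := hy.2
      unfold ed at h2
      rw [Prod.mk.injEq, Option.some.injEq] at h2
      obtain ⟨h3, h4⟩ := h2
      rw [mem_insert, mem_singleton]
      rw [h4] at h3
      by_cases h5 : y0.2 ∈ y.1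
      · right
        refine Prod.ext ?_ h4
        simp only
        rw [← insert_erase h5, h3]
        ext a
        simp only [mem_insert, mem_erase]
        tauto
      · left
        refine Prod.ext ?_ h4
        simp only
        rw [← h3, erase_eq_of_notMem h5]
    refine (card_le_card h1).trans ?_
    exact card_le_two
  refine hfib.trans (Nat.mul_le_mul_left 2 ?_)
  refine (card_le_card himg).trans ?_
  exact (card_biU v lam univ).trans (Nat.mul_le_mul_right _ hT')

end Pool.Agent.SK.Lin
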