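import Pool.Agent.Lib.MP_5fcc10_co_lin.DelDef
import Pool.Agent.Lib.MP_5fcc10_co_lin.ALLL
import Pool.Agent.Lib.MP_5fcc10_co_lin.DP3
import Pool.Agent.Lib.MP_5fcc10_co_lin_h87.DP2

/-! Module GOOD: good labelings exist, by the asymmetric local lemma. -/

set_option linter.unusedSectionVars false

namespace Pool.Agent.SK.Lin

open Finset
open scoped symmDiff

namespace GD

variable {n p m d0 : ℕ}

lemma half_le_exp {x : ℝ} (hx : x ≤ 1 / 4) : 1 / 2 ≤ Real.exp (-(2 * x)) := by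
  have h := Real.add_one_le_exp (-(2 * x))
  linarith

lemma pv_ham (Z : Finset (Fin n)) {d : ℕ} (a : Fin d → Fin n) (l : ℕ) : pv Z a l ∈ ham Z l := by
  rw [mem_ham]
  unfold pv
  rw [symmDiff_symmDiff_cancel_left]
  refine card_image_le.trans ?_
  have h1 : (univ.filter (fun r : Fin d => r.val < l)).card ≤ (range l).card :=
    card_le_card_of_injOn (fun r => r.val) (fun r hr => by
      have := (mem_filter.1 hr).2
      simpa using this) (fun r _ s _ h => Fin.ext h)
  rwa [card_range] at h1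

lemma ed_fst_ham (v : Finset (Fin n)) (e : Fin n) : (ed v e).1 ∈ ham v 1 := by
  rw [mem_ham]
  unfold ed
  simp only
  have h : v ∆ v.erase e ⊆ {e} := by
    intro x hx
    rw [mem_symmDiff] at hx
    rw [mem_singleton]
    rcases hx with ⟨h1, h2⟩ | ⟨h1, h2⟩
    · by_contra hne
      exact h2 (mem_erase.2 ⟨hne, h1⟩)
    · exact absurd (mem_of_mem_erase h1) h2
  exact (card_le_card h).trans (by simp)

lemma pes_ham {Z : Finset (Fin n)} {d : ℕ} {a : Fin d → Fin n} {y : Ix n} (hy : y ∈ pes Z a) :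
    y.1 ∈ ham Z d := by
  unfold pes at hy
  rw [mem_image] at hy
  obtain ⟨l, _, rfl⟩ := hy
  unfold pe
  have h1 := ham_trans (pv_ham Z a l.val) (ed_fst_ham (pv Z a l) (a l))
  exact ham_mono (by have := l.isLt; omega) h1

lemma S_ham {v : Finset (Fin n)} {x : Str n p m d0} {y : Ix n} (hy : y ∈ x.S v) :
    y.1 ∈ ham v (m + d0) := by
  have hl : x.1.1.val ≤ m := Nat.lt_succ_iff.1 x.1.1.isLt
  have hd : x.2.1.1.val ≤ d0 := Nat.lt_succ_iff.1 x.2.1.1.isLt
  have hw : x.w v ∈ ham v x.1.1.val := pv_ham _ _ _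
  unfold Str.S at hy
  rcases mem_union.1 hy with h | h
  · exact ham_mono (by omega) (pes_ham h)
  · rcases mem_union.1 h with h | h
    · exact ham_mono (by omega) (ham_trans hw (pes_ham h))
    · exact ham_mono (by omega) (ham_trans hw (pes_ham h))

lemma ham_symm {u v : Finset (Fin n)} {r : ℕ} (h : u ∈ ham v r) : v ∈ ham u r := by
  rw [mem_ham] at *
  rwa [symmDiff_comm]

/-- the chain event -/
def chev (T : ℕ) (q : Finset (Fin n) × ZMod p × (Fin T → Str n p m d0)) (ψ : Ix n → Lb p) : Prop :=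
  ∀ r, (q.2.2 r).ok ∧ (q.2.2 r).occ ψ q.1 q.2.1 ∧
    ¬ (q.2.2 r).S q.1 ⊆ (univ.filter (fun s => s < r)).biUnion (fun s => (q.2.2 s).S q.1)

/-- its support -/
def chS (T : ℕ) (q : Finset (Fin n) × ZMod p × (Fin T → Str n p m d0)) : Finset (Ix n) :=
  univ.biUnion (fun s => (q.2.2 s).S q.1)

lemma dep_ch (T : ℕ) (q : Finset (Fin n) × ZMod p × (Fin T → Str n p m d0)) :
    Dep (chev T q) (chS T q) := by
  intro φ ψ h
  apply propext
  unfold chev
  refine forall_congr' fun r => ?_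
  have h1 : (q.2.2 r).occ φ q.1 q.2.1 ↔ (q.2.2 r).occ ψ q.1 q.2.1 :=
    H87.occ_congr fun y hy => h y (mem_biUnion.2 ⟨r, mem_univ _, hy⟩)
  rw [h1]

open Classical in
/-- the weights of the chains through a vertex -/
lemma sum_ch [NeZero p] (T : ℕ) (ζ : ℝ)
    (hζ : ∀ (v : Finset (Fin n)) (i : ZMod p) (U : Finset (Ix n)) (ψ0 : Ix n → Lb p),
      U.card ≤ T * (m + 2 * d0) →
      ∀ F : Finset (Str n p m d0), (∀ x ∈ F, x.ok ∧ ¬ x.S v ⊆ U ∧ x.okU ψ0 U v i) →
      ∑ x ∈ F, (1 / (p : ℝ)) ^ (x.S v \ U).card ≤ ζ) (v : Finset (Fin n)) (i : ZMod p) :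
    ∑ lam : Fin T → Str n p m d0, P (chev T (v, i, lam)) ≤ ζ ^ T := by
  refine le_trans ?_ (chain_weight m d0 v i ζ T (hζ v i))
  rw [sum_filter]
  refine sum_le_sum fun lam _ => ?_
  split_ifs with h
  · exact P_mono fun φ hφ r => (hφ r).2.1
  · have h0 : P (chev T (v, i, lam)) = P (fun _ : Ix n → Lb p => False) := by
      congr 1
      funext φ
      apply propext
      constructor
      · intro hφ
        exact h fun r => ⟨(hφ r).1, (hφ r).2.2⟩
      · intro hf; exact hf.elim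
    rw [h0]
    unfold P
    simp [E_const]

/-- index type of the long double paths -/
abbrev LG (n p L : ℕ) :=
  (Σ d : Fin (L + 1), Finset (Fin n) × (Fin d.val → Fin n) × Equiv.Perm (Fin d.val)) ×
    ZMod p × ZMod p

/-- validity -/
def lgc (d0 : ℕ) {L : ℕ} (q : LG n p L) : Prop :=
  d0 < q.1.1.val ∧ Function.Injective q.1.2.2.1 ∧ conn q.1.2.2.2

/-- the event -/
def lgev (d0 : ℕ) {L : ℕ} (q : LG n p L) (ψ : Ix n → Lb p) : Prop :=
  lgc d0 q ∧ DPo ψ q.1.2.1 q.1.2.2.1 q.1.2.2.2 q.2.1 q.2.2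

/-- its support -/
def lgS {L : ℕ} (q : LG n p L) : Finset (Ix n) :=
  pes q.1.2.1 q.1.2.2.1 ∪ pes q.1.2.1 (q.1.2.2.1 ∘ q.1.2.2.2)

open Classical in
/-- its weight -/
noncomputable def lgx (d0 : ℕ) {L : ℕ} (q : LG n p L) : ℝ :=
  if lgc d0 q then 2 * (1 / (p : ℝ)) ^ (2 * q.1.1.val) else 0

lemma dep_lg {L : ℕ} (q : LG n p L) : Dep (lgev d0 q) (lgS q) := by
  intro φ ψ h
  apply propext
  unfold lgev DPo
  have h1 : ∀ x ∈ pes q.1.2.1 q.1.2.2.1, φ x = ψ x := fun x hx => h x (mem_union_left _ hx)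
  have h2 : ∀ x ∈ pes q.1.2.1 (q.1.2.2.1 ∘ q.1.2.2.2), φ x = ψ x :=
    fun x hx => h x (mem_union_right _ hx)
  constructor
  · rintro ⟨a, b, c⟩
    exact ⟨a, fun x hx => (h1 x hx) ▸ b x hx, fun x hx => (h2 x hx) ▸ c x hx⟩
  · rintro ⟨a, b, c⟩
    exact ⟨a, fun x hx => (h1 x hx).symm ▸ b x hx, fun x hx => (h2 x hx).symm ▸ c x hx⟩

lemma card_lgS {L : ℕ} (q : LG n p L) : (lgS q).card ≤ 2 * L := by
  have hd : q.1.1.val ≤ L := Nat.lt_succ_iff.1 q.1.1.isLt
  unfold lgS
  refine (card_union_le _ _).trans ?_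
  have h1 := H87.card_pes q.1.2.1 q.1.2.2.1
  have h2 := H87.card_pes q.1.2.1 (q.1.2.2.1 ∘ q.1.2.2.2)
  omega

lemma lgx_nonneg {L : ℕ} (q : LG n p L) : 0 ≤ lgx d0 q := by
  unfold lgx
  split_ifs
  · positivity
  · exact le_rfl

lemma P_lg [NeZero p] (hd0 : 2 ≤ d0) {L : ℕ} (q : LG n p L) : 2 * P (lgev d0 q) ≤ lgx d0 q := by
  unfold lgx
  split_ifs with h
  · have h1 : P (lgev d0 q) ≤ (1 / (p : ℝ)) ^ (2 * q.1.1.val) :=
      (P_mono fun φ hφ => hφ.2).trans
        (prob_DPo q.1.1.val (by have := h.1; omega) q.1.2.1 q.1.2.2.1 q.1.2.2.2 h.2.1 h.2.2 q.2.1 q.2.2)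
    linarith
  · have h0 : P (lgev d0 q) = P (fun _ : Ix n → Lb p => False) := by
      congr 1
      funext φ
      apply propext
      exact ⟨fun hφ => h hφ.1, fun hf => hf.elim⟩
    rw [h0]
    unfold P
    simp [E_const]

open Classical in
lemma sum_lg [NeZero p] (hd0 : 2 ≤ d0) (L : ℕ) (y : Ix n) :
    ∑ q : LG n p L, (if y ∈ lgS q then lgx d0 q else 0)
      ≤ 2 * ∑ d ∈ Finset.Ioc d0 L, (p : ℝ) ^ 2 * (4 * d * (n : ℝ) ^ (d - 1) * d.factorial)
      * (1 / (p : ℝ)) ^ (2 * d) := by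
  rw [Fintype.sum_prod_type]
  have h1 : ∀ q1 : (Σ d : Fin (L + 1), Finset (Fin n) × (Fin d.val → Fin n) ×
      Equiv.Perm (Fin d.val)), ∑ ij : ZMod p × ZMod p,
      (if y ∈ lgS ((q1, ij) : LG n p L) then lgx d0 ((q1, ij) : LG n p L) else 0)
      = (p : ℝ) ^ 2 * (if y ∈ lgS ((q1, (0, 0)) : LG n p L) then
        lgx d0 ((q1, (0, 0)) : LG n p L) else 0) := by
    intro q1
    have h2 : ∀ ij ∈ (univ : Finset (ZMod p × ZMod p)),
        (if y ∈ lgS ((q1, ij) : LG n p L) then lgx d0 ((q1, ij) : LG n p L) else 0)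
        = (if y ∈ lgS ((q1, (0, 0)) : LG n p L) then lgx d0 ((q1, (0, 0)) : LG n p L) else 0) :=
      fun ij _ => rfl
    rw [sum_congr rfl h2, sum_const, card_univ, Fintype.card_prod, ZMod.card, nsmul_eq_mul]
    push_cast
    ring
  rw [sum_congr rfl (fun q1 _ => h1 q1), ← mul_sum, Fintype.sum_sigma]
  have h3 : ∀ d : Fin (L + 1), ∑ x : Finset (Fin n) × (Fin d.val → Fin n) × Equiv.Perm (Fin d.val),
      (if y ∈ lgS ((⟨d, x⟩, (0, 0)) : LG n p L) then lgx d0 ((⟨d, x⟩, (0, 0)) : LG n p L) else 0)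
      ≤ if d0 < d.val then (4 * d.val * (n : ℝ) ^ (d.val - 1) * d.val.factorial)
        * (2 * (1 / (p : ℝ)) ^ (2 * d.val)) else 0 := by
    intro d
    split_ifs with hd
    · have h4 : ∀ x : Finset (Fin n) × (Fin d.val → Fin n) × Equiv.Perm (Fin d.val),
          (if y ∈ lgS ((⟨d, x⟩, (0, 0)) : LG n p L) then lgx d0 ((⟨d, x⟩, (0, 0)) : LG n p L) else 0)
          = if (Function.Injective x.2.1 ∧ conn x.2.2 ∧
            (y ∈ pes x.1 x.2.1 ∨ y ∈ pes x.1 (x.2.1 ∘ x.2.2)))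
            then 2 * (1 / (p : ℝ)) ^ (2 * d.val) else 0 := by
        intro x
        unfold lgS lgx lgc
        simp only [mem_union]
        by_cases ha : Function.Injective x.2.1
        · by_cases hc : conn x.2.2
          · by_cases hy : y ∈ pes x.1 x.2.1 ∨ y ∈ pes x.1 (x.2.1 ∘ x.2.2)
            · rw [if_pos hy, if_pos ⟨hd, ha, hc⟩, if_pos ⟨ha, hc, hy⟩]
            · rw [if_neg hy, if_neg (fun h => hy h.2.2)]
          · rw [if_neg (fun h : d0 < d.val ∧ _ => hc h.2.2),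
              if_neg (fun h : Function.Injective x.2.1 ∧ _ => hc h.2.1)]
            split_ifs <;> rfl
        · rw [if_neg (fun h : d0 < d.val ∧ _ => ha h.2.1),
            if_neg (fun h : Function.Injective x.2.1 ∧ _ => ha h.1)]
          split_ifs <;> rfl
      rw [sum_congr rfl (fun x _ => h4 x), ← sum_filter, sum_const, nsmul_eq_mul]
      refine mul_le_mul_of_nonneg_right ?_ (by positivity)
      have h5 := long_weight (p := p) d.val (by omega) y
        (univ.filter (fun x : Finset (Fin n) × (Fin d.val → Fin n) × Equiv.Perm (Fin d.val) =>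
          Function.Injective x.2.1 ∧ conn x.2.2 ∧
            (y ∈ pes x.1 x.2.1 ∨ y ∈ pes x.1 (x.2.1 ∘ x.2.2))))
        (fun x hx => (mem_filter.1 hx).2)
      exact_mod_cast h5
    · refine le_of_eq (sum_eq_zero fun x _ => ?_)
      unfold lgx lgc
      rw [if_neg (fun h : d0 < d.val ∧ _ => hd h.1)]
      split_ifs <;> rfl
  have h6 := sum_le_sum (s := (univ : Finset (Fin (L + 1)))) (fun d _ => h3 d)
  have h7 : ∑ d : Fin (L + 1), (if d0 < d.val then (4 * d.val * (n : ℝ) ^ (d.val - 1)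
        * d.val.factorial) * (2 * (1 / (p : ℝ)) ^ (2 * d.val)) else 0)
      = ∑ d ∈ Finset.Ioc d0 L, (4 * d * (n : ℝ) ^ (d - 1) * d.factorial)
        * (2 * (1 / (p : ℝ)) ^ (2 * d)) := by
    rw [Fin.sum_univ_eq_sum_range (fun d => if d0 < d then (4 * (d : ℝ) * (n : ℝ) ^ (d - 1)
        * d.factorial) * (2 * (1 / (p : ℝ)) ^ (2 * d)) else 0) (L + 1), ← sum_filter]
    refine sum_congr ?_ fun _ _ => rfl
    ext d
    rw [mem_filter, mem_range, mem_Ioc]
    omega
  rw [h7] at h6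
  calc (p : ℝ) ^ 2 * _ ≤ (p : ℝ) ^ 2 * ∑ d ∈ Finset.Ioc d0 L,
        (4 * d * (n : ℝ) ^ (d - 1) * d.factorial) * (2 * (1 / (p : ℝ)) ^ (2 * d)) :=
        mul_le_mul_of_nonneg_left h6 (by positivity)
    _ = _ := by
        rw [mul_sum, mul_sum]
        refine sum_congr rfl fun d _ => ?_
        ring

lemma lgx_le [NeZero p] {L : ℕ} {σ : ℝ} (hd0 : 2 ≤ d0)
    (h3 : 2 * ∑ d ∈ Finset.Ioc d0 L, (p : ℝ) ^ 2 * (4 * d * (n : ℝ) ^ (d - 1) * d.factorial)
      * (1 / (p : ℝ)) ^ (2 * d) ≤ σ) (hσ : σ ≤ 1 / 2) (q : LG n p L) : lgx d0 q ≤ 1 / 2 := by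
  unfold lgx
  split_ifs with h
  · have hd : q.1.1.val ≤ L := Nat.lt_succ_iff.1 q.1.1.isLt
    have hdd : 2 ≤ q.1.1.val := by have := h.1; omega
    have hn : 1 ≤ n := by
      rcases Nat.eq_zero_or_pos n with rfl | h0
      · exact (q.1.2.2.1 ⟨0, by omega⟩).elim0
      · exact h0
    have hp : 1 ≤ p := Nat.one_le_iff_ne_zero.2 (NeZero.ne p)
    have h4 := single_le_sum (s := Finset.Ioc d0 L)
      (f := fun d : ℕ => (p : ℝ) ^ 2 * (4 * d * (n : ℝ) ^ (d - 1) * d.factorial)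
        * (1 / (p : ℝ)) ^ (2 * d)) (fun d _ => by positivity)
      (mem_Ioc.2 ⟨h.1, hd⟩ : q.1.1.val ∈ Finset.Ioc d0 L)
    have h5 : (1 : ℝ) ≤ (p : ℝ) ^ 2 * (4 * q.1.1.val * (n : ℝ) ^ (q.1.1.val - 1)
        * q.1.1.val.factorial) := by
      have h6 : 1 ≤ p ^ 2 * (4 * q.1.1.val * n ^ (q.1.1.val - 1) * q.1.1.val.factorial) := by
        have := q.1.1.val.factorial_pos
        have : 0 < n ^ (q.1.1.val - 1) := by positivity
        have : 0 < q.1.1.val := by omega
        exact Nat.succ_le_of_lt (by positivity)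
      exact_mod_cast h6
    have h7 : (1 / (p : ℝ)) ^ (2 * q.1.1.val) ≤ (p : ℝ) ^ 2 * (4 * q.1.1.val
        * (n : ℝ) ^ (q.1.1.val - 1) * q.1.1.val.factorial) * (1 / (p : ℝ)) ^ (2 * q.1.1.val) :=
      le_mul_of_one_le_left (by positivity) h5
    linarith
  · norm_num

end GD

open GD in
open Classical in
theorem good_labels {n p m d0 T R L : ℕ} [NeZero p] (lo hi : ℕ)
    (Bd : Lb p → ℕ → Finset (Fin n) → (Ix n → Lb p) → Prop)
    (hdep : ∀ c t, lo ≤ t → t < hi → ∀ v, Dep (Bd c t v) (hamI v R)) (pb : ℝ) (hpb0 : 0 ≤ pb)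
    (hpb : ∀ c t, lo ≤ t → t < hi → ∀ v, inL t v → P (Bd c t v) ≤ pb)
    (ζ : ℝ) (hζ0 : 0 ≤ ζ) (hT : 1 ≤ T) (hd0 : 2 ≤ d0)
    (hζ : ∀ (v : Finset (Fin n)) (i : ZMod p) (U : Finset (Ix n)) (ψ0 : Ix n → Lb p),
      U.card ≤ T * (m + 2 * d0) →
      ∀ F : Finset (Str n p m d0), (∀ x ∈ F, x.ok ∧ ¬ x.S v ⊆ U ∧ x.okU ψ0 U v i) →
      ∑ x ∈ F, (1 / (p : ℝ)) ^ (x.S v \ U).card ≤ ζ)
    {ι4 : Type} [Fintype ι4] (A4 : ι4 → (Ix n → Lb p) → Prop)
    (S4 : ι4 → Finset (Ix n)) (hdep4 : ∀ i, Dep (A4 i) (S4 i)) (x4 : ι4 → ℝ)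
    (hx40 : ∀ i, 0 ≤ x4 i) (hx41 : ∀ i, x4 i ≤ 1 / 2) (σ : ℝ)
    (hσ4 : ∀ y, ∑ i ∈ univ.filter (fun i => y ∈ S4 i), x4 i ≤ σ / 4)
    (hp4 : ∀ i, P (A4 i) ≤ x4 i * Real.exp (-(2 * σ * (S4 i).card)))
    (h1 : 2 * (((n : ℝ) + 1) ^ R * (2 * p) * (n + 1) * pb) ≤ σ / 4)
    (h2 : 2 * (((n : ℝ) + 1) ^ (m + d0) * p * ζ ^ T) ≤ σ / 4)
    (h3 : 2 * ∑ d ∈ Finset.Ioc d0 L, (p : ℝ) ^ 2 * (4 * d * (n : ℝ) ^ (d - 1) * d.factorial)
      * (1 / (p : ℝ)) ^ (2 * d) ≤ σ / 4)
    (hs1 : σ * ((n : ℝ) + 1) ^ (R + 1) ≤ 1 / 4) (hs2 : σ * (T * (m + 2 * d0)) ≤ 1 / 4)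
    (hs3 : σ * (2 * L) ≤ 1 / 4) :
    ∃ ψ : Ix n → Lb p, (∀ c t, lo ≤ t → t < hi → ∀ v, inL t v → ¬ Bd c t v ψ) ∧
      (∀ (v : Finset (Fin n)) (i : ZMod p) (lam : Fin T → Str n p m d0),
        (∀ r, (lam r).ok ∧ (lam r).occ ψ v i ∧
        ¬ (lam r).S v ⊆ (univ.filter (fun s => s < r)).biUnion (fun s => (lam s).S v)) → False) ∧
      (∀ d, d0 < d → d ≤ L → ∀ (Z : Finset (Fin n)) (a : Fin d → Fin n)
        (π : Equiv.Perm (Fin d)) (i j : ZMod p), Function.Injective a → conn π →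
        ¬ DPo ψ Z a π i j) ∧ ∀ i, ¬ A4 i ψ := by
  have hp1 : (1 : ℝ) ≤ p := by
    exact_mod_cast Nat.one_le_iff_ne_zero.2 (NeZero.ne p)
  have hn1 : (1 : ℝ) ≤ (n : ℝ) + 1 := by
    have : (0 : ℝ) ≤ n := Nat.cast_nonneg n
    linarith
  have hσ0 : 0 ≤ σ := by
    have : 0 ≤ 2 * (((n : ℝ) + 1) ^ R * (2 * p) * (n + 1) * pb) := by positivity
    linarith
  have hσ14 : σ ≤ 1 / 4 := by
    have : σ * 1 ≤ σ * ((n : ℝ) + 1) ^ (R + 1) :=
      mul_le_mul_of_nonneg_left (one_le_pow₀ hn1) hσ0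
    linarith
  -- first family
  let A1 : (Lb p × Fin (n + 1) × Finset (Fin n)) → (Ix n → Lb p) → Prop := fun q ψ =>
    lo ≤ q.2.1.val ∧ q.2.1.val < hi ∧ inL q.2.1.val q.2.2 ∧ Bd q.1 q.2.1.val q.2.2 ψ
  have hdep1 : ∀ q, Dep (A1 q) (hamI q.2.2 R) := by
    intro q φ ψ h
    apply propext
    constructor
    · rintro ⟨a, b, c, d⟩
      refine ⟨a, b, c, ?_⟩
      rwa [← hdep q.1 q.2.1.val a b q.2.2 φ ψ h]
    · rintro ⟨a, b, c, d⟩
      refine ⟨a, b, c, ?_⟩
      rwa [hdep q.1 q.2.1.val a b q.2.2 φ ψ h]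
  have hP1 : ∀ q, P (A1 q) ≤ pb := by
    intro q
    by_cases h : lo ≤ q.2.1.val ∧ q.2.1.val < hi ∧ inL q.2.1.val q.2.2
    · exact (P_mono fun φ hφ => hφ.2.2.2).trans (hpb q.1 q.2.1.val h.1 h.2.1 q.2.2 h.2.2)
    · have h0 : P (A1 q) = P (fun _ : Ix n → Lb p => False) := by
        congr 1
        funext φ
        apply propext
        exact ⟨fun hφ => h ⟨hφ.1, hφ.2.1, hφ.2.2.1⟩, fun hf => hf.elim⟩
      rw [h0]
      unfold P
      simpa [E_const] using hpb0
  -- small auxiliary bounds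
  have hx1half : 2 * pb ≤ 1 / 2 := by
    have h5 : (1 : ℝ) ≤ ((n : ℝ) + 1) ^ R * (2 * p) * (n + 1) := by
      have a1 : (1 : ℝ) ≤ ((n : ℝ) + 1) ^ R := one_le_pow₀ hn1
      have a2 : (1 : ℝ) ≤ 2 * p := by linarith
      exact one_le_mul_of_one_le_of_one_le (one_le_mul_of_one_le_of_one_le a1 a2) hn1
    have h6 : pb ≤ ((n : ℝ) + 1) ^ R * (2 * p) * (n + 1) * pb := le_mul_of_one_le_left hpb0 h5
    linarith
  have hζT : 0 ≤ ζ ^ T := pow_nonneg hζ0 T
  have hζhalf : 2 * ζ ^ T ≤ 1 / 2 := by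
    have h5 : (1 : ℝ) ≤ ((n : ℝ) + 1) ^ (m + d0) * p :=
      one_le_mul_of_one_le_of_one_le (one_le_pow₀ hn1) hp1
    have h6 : ζ ^ T ≤ ((n : ℝ) + 1) ^ (m + d0) * p * ζ ^ T := le_mul_of_one_le_left hζT h5
    linarith
  have hch : ∀ q : Finset (Fin n) × ZMod p × (Fin T → Str n p m d0), P (chev T q) ≤ ζ ^ T := by
    intro q
    refine le_trans ?_ (sum_ch T ζ hζ q.1 q.2.1)
    exact single_le_sum (f := fun lam : Fin T → Str n p m d0 => P (chev T (q.1, q.2.1, lam)))
      (fun lam _ => P_nonneg _) (mem_univ q.2.2)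
  have hexp : ∀ c : ℕ, σ * c ≤ 1 / 4 → 1 / 2 ≤ Real.exp (-(2 * σ * c)) := by
    intro c hc
    have := half_le_exp hc
    rwa [← mul_assoc] at this
  -- the four families together
  obtain ⟨ψ, hψ⟩ := alll
    (ι := (Lb p × Fin (n + 1) × Finset (Fin n)) ⊕
      ((Finset (Fin n) × ZMod p × (Fin T → Str n p m d0)) ⊕ (LG n p L ⊕ ι4)))
    (Sum.elim A1 (Sum.elim (chev T) (Sum.elim (lgev d0) A4)))
    (Sum.elim (fun q => hamI q.2.2 R) (Sum.elim (chS T) (Sum.elim lgS S4)))
    (by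
      rintro (q | q | q | q)
      · exact hdep1 q
      · exact dep_ch T q
      · exact dep_lg q
      · exact hdep4 q)
    (Sum.elim (fun _ => 2 * pb) (Sum.elim (fun q => 2 * P (chev T q)) (Sum.elim (lgx d0) x4)))
    (by
      rintro (q | q | q | q)
      · exact mul_nonneg (by norm_num) hpb0
      · exact mul_nonneg (by norm_num) (P_nonneg _)
      · exact lgx_nonneg q
      · exact hx40 q)
    (by
      rintro (q | q | q | q)
      · exact hx1half
      · exact le_trans (mul_le_mul_of_nonneg_left (hch q) (by norm_num)) hζhalf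
      · exact lgx_le hd0 h3 (by linarith) q
      · exact hx41 q)
    σ
    (by
      intro y
      rw [sum_filter, Fintype.sum_sum_type, Fintype.sum_sum_type, Fintype.sum_sum_type]
      simp only [Sum.elim_inl, Sum.elim_inr]
      have e1 : ∑ q : Lb p × Fin (n + 1) × Finset (Fin n),
          (if y ∈ hamI q.2.2 R then 2 * pb else 0) ≤ σ / 4 := by
        refine le_trans ?_ h1
        have e2 : ∑ v : Finset (Fin n), (if y ∈ hamI v R then 2 * pb else 0)
            ≤ ((n : ℝ) + 1) ^ R * (2 * pb) := by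
          calc ∑ v : Finset (Fin n), (if y ∈ hamI v R then 2 * pb else 0)
              ≤ ∑ v : Finset (Fin n), (if v ∈ ham y.1 R then 2 * pb else 0) := by
                refine sum_le_sum fun v _ => ?_
                by_cases hv : y ∈ hamI v R
                · rw [if_pos hv, if_pos (ham_symm (fst_mem_of_hamI hv))]
                · rw [if_neg hv]
                  split_ifs
                  · positivity
                  · exact le_rfl
            _ = ((ham y.1 R).card : ℝ) * (2 * pb) := by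
                rw [← sum_filter, sum_const, nsmul_eq_mul]
                congr 3
                ext v
                simp
            _ ≤ _ := by
                refine mul_le_mul_of_nonneg_right ?_ (by positivity)
                exact_mod_cast card_ham y.1 R
        have e7 : ∀ c : Lb p, ∑ w : Fin (n + 1) × Finset (Fin n),
            (if y ∈ hamI ((c, w) : Lb p × Fin (n + 1) × Finset (Fin n)).2.2 R then 2 * pb else 0)
            ≤ ((n : ℝ) + 1) * (((n : ℝ) + 1) ^ R * (2 * pb)) := by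
          intro c
          rw [Fintype.sum_prod_type]
          refine (sum_le_sum (fun t _ => e2)).trans (le_of_eq ?_)
          rw [sum_const, card_univ, Fintype.card_fin, nsmul_eq_mul]
          push_cast
          ring
        rw [Fintype.sum_prod_type]
        refine (sum_le_sum (fun c _ => e7 c)).trans (le_of_eq ?_)
        rw [sum_const, card_univ, Fintype.card_prod, ZMod.card, ZMod.card, nsmul_eq_mul]
        push_cast
        ring
      have e3 : ∑ q : Finset (Fin n) × ZMod p × (Fin T → Str n p m d0),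
          (if y ∈ chS T q then 2 * P (chev T q) else 0) ≤ σ / 4 := by
        refine le_trans ?_ h2
        have e4 : ∀ q : Finset (Fin n) × ZMod p × (Fin T → Str n p m d0),
            (if y ∈ chS T q then 2 * P (chev T q) else 0)
            ≤ if q.1 ∈ ham y.1 (m + d0) then 2 * P (chev T q) else 0 := by
          intro q
          by_cases hv : y ∈ chS T q
          · have h7 : q.1 ∈ ham y.1 (m + d0) := by
              unfold chS at hv
              rw [mem_biUnion] at hv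
              obtain ⟨s, _, hs⟩ := hv
              exact ham_symm (S_ham hs)
            rw [if_pos hv, if_pos h7]
          · rw [if_neg hv]
            have := P_nonneg (chev T q)
            split_ifs
            · linarith
            · exact le_rfl
        refine (sum_le_sum fun q _ => e4 q).trans ?_
        rw [Fintype.sum_prod_type]
        calc ∑ v : Finset (Fin n), ∑ w : ZMod p × (Fin T → Str n p m d0),
              (if v ∈ ham y.1 (m + d0) then 2 * P (chev T (v, w)) else 0)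
            ≤ ∑ v : Finset (Fin n), (if v ∈ ham y.1 (m + d0) then (p : ℝ) * (2 * ζ ^ T) else 0) := by
              refine sum_le_sum fun v _ => ?_
              split_ifs with hv
              · rw [Fintype.sum_prod_type]
                calc ∑ i : ZMod p, ∑ lam : Fin T → Str n p m d0, 2 * P (chev T (v, i, lam))
                    ≤ ∑ i : ZMod p, 2 * ζ ^ T := by
                      refine sum_le_sum fun i _ => ?_
                      rw [← mul_sum]
                      exact mul_le_mul_of_nonneg_left (sum_ch T ζ hζ v i) (by norm_num)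
                  _ = _ := by rw [sum_const, card_univ, ZMod.card, nsmul_eq_mul]
              · exact le_of_eq sum_const_zero
          _ = ((ham y.1 (m + d0)).card : ℝ) * ((p : ℝ) * (2 * ζ ^ T)) := by
              rw [← sum_filter, sum_const, nsmul_eq_mul]
              congr 3
              ext v
              simp
          _ ≤ ((n : ℝ) + 1) ^ (m + d0) * ((p : ℝ) * (2 * ζ ^ T)) := by
              refine mul_le_mul_of_nonneg_right ?_ (by positivity)
              exact_mod_cast card_ham y.1 (m + d0)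
          _ = _ := by ring
      have e5 : ∑ q : LG n p L, (if y ∈ lgS q then lgx d0 q else 0) ≤ σ / 4 :=
        (sum_lg hd0 L y).trans h3
      have e6 : ∑ i : ι4, (if y ∈ S4 i then x4 i else 0) ≤ σ / 4 := by
        rw [← sum_filter]
        exact hσ4 y
      have key : (∑ q : Lb p × Fin (n + 1) × Finset (Fin n),
          (if y ∈ hamI q.2.2 R then 2 * pb else 0)) +
          ((∑ q : Finset (Fin n) × ZMod p × (Fin T → Str n p m d0),
          (if y ∈ chS T q then 2 * P (chev T q) else 0)) +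
          ((∑ q : LG n p L, (if y ∈ lgS q then lgx d0 q else 0)) +
          ∑ i : ι4, (if y ∈ S4 i then x4 i else 0))) ≤ σ := by linarith
      exact key)
    (by
      rintro (q | q | q | q)
      · simp only [Sum.elim_inl]
        have h5 : σ * ((hamI q.2.2 R).card : ℝ) ≤ 1 / 4 := by
          refine le_trans (mul_le_mul_of_nonneg_left ?_ hσ0) hs1
          exact_mod_cast card_hamI q.2.2 R
        have h6 := hexp _ h5
        calc P (A1 q) ≤ pb := hP1 q
          _ = 2 * pb * (1 / 2) := by ring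
          _ ≤ _ := mul_le_mul_of_nonneg_left h6 (by positivity)
      · simp only [Sum.elim_inl, Sum.elim_inr]
        have h5 : σ * ((chS T q).card : ℝ) ≤ 1 / 4 := by
          refine le_trans (mul_le_mul_of_nonneg_left ?_ hσ0) hs2
          exact_mod_cast H87.card_biU q.1 q.2.2 univ
        have h6 := hexp _ h5
        have h7 := P_nonneg (chev T q)
        calc P (chev T q) = 2 * P (chev T q) * (1 / 2) := by ring
          _ ≤ _ := mul_le_mul_of_nonneg_left h6 (by positivity)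
      · simp only [Sum.elim_inl, Sum.elim_inr]
        have h5 : σ * ((lgS q).card : ℝ) ≤ 1 / 4 := by
          refine le_trans (mul_le_mul_of_nonneg_left ?_ hσ0) hs3
          exact_mod_cast card_lgS q
        have h6 := hexp _ h5
        have h7 := P_lg hd0 q
        have h8 := lgx_nonneg (d0 := d0) q
        calc P (lgev d0 q) ≤ lgx d0 q * (1 / 2) := by linarith
          _ ≤ _ := mul_le_mul_of_nonneg_left h6 h8
      · exact hp4 q)
  refine ⟨ψ, ?_, ?_, ?_, ?_⟩
  · intro c t hlo hhi v hv hB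
    have ht : t < n + 1 := by
      have h5 : v.card ≤ n := (card_le_univ v).trans (by rw [Fintype.card_fin])
      rcases hv with h | h <;> omega
    exact hψ (Sum.inl (c, ⟨t, ht⟩, v)) ⟨hlo, hhi, hv, hB⟩
  · intro v i lam h
    exact hψ (Sum.inr (Sum.inl (v, i, lam))) h
  · intro d hd hdL Z a π i j ha hπ h
    exact hψ (Sum.inr (Sum.inr (Sum.inl (⟨⟨d, by omega⟩, (Z, a, π)⟩, (i, j))))) ⟨⟨hd, ha, hπ⟩, h⟩
  · intro i h
    exact hψ (Sum.inr (Sum.inr (Sum.inr i))) h

end Pool.Agent.SK.Lin
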